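import Pool.Agent.L0h47.CG.Stmt

/-!
# The cohomology of the spaces `Y(K_f)` of `GL_n` over the rational numbers

The finite adelic points of `GL_n`, levels, coefficients, the cohomology of `Y(K_f)`, its Hecke
operators, systems of Hecke eigenvalues and the Galois representations attached to them.
-/

set_option autoImplicit false

namespace Pool.Agent.L0h47.CGS

open Matrix NumberField

attribute [-instance] Pool.Agent.L0h47.CG.instFactPr

/-- The prime numbers. -/
abbrev Pr := {l : ℕ // l.Prime}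

instance instFact (l : Pr) : Fact (l : ℕ).Prime := ⟨l.2⟩

variable {n : ℕ} {l : Pr}

/-! ### Generalities -/

section General

variable {O : Type} [CommRing O]

/-- The linear map `φ` commutes with the representation `ρ`. -/
def Comm {G V : Type} [Group G] [AddCommGroup V] [Module O V] (ρ : Representation O G V)
    (φ : V →ₗ[O] V) : Prop := ∀ γ v, φ (ρ γ v) = ρ γ (φ v)

/-- The endomorphism of the cohomology given by an endomorphism of a representation. -/
noncomputable def mapH {G V : Type} [Group G] [AddCommGroup V] [Module O V]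
    (ρ : Representation O G V) (φ : V →ₗ[O] V) (h : Comm ρ φ) (i : ℕ) :
    Module.End O (groupCohomology (Rep.of ρ) i) :=
  (groupCohomology.map (MonoidHom.id G)
    (Rep.ofHom (LinearMap.intertwiningMap_of_isIntertwiningMap ρ ρ φ h)) i).hom

/-- The system of eigenvalues `θ` occurs in the module `M` with the operators `T`, that is, the
localisation of `M` at the kernel of `θ` is not zero: there is an element of `M` whose annihilator
in the algebra generated by the operators is contained in the kernel of `θ`. -/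
def Occurs {I M k : Type} [AddCommGroup M] [Module O M] [Field k] [Algebra O k]
    (T : I → Module.End O M) (θ : FreeAlgebra O I →ₐ[O] k) : Prop :=
  ∃ h : M, ∀ P : FreeAlgebra O I, FreeAlgebra.lift O T P h = 0 → θ P = 0

end General

/-! ### The group `GL_n(A_f)` -/

/-- `GL_n(Q_l)` -/
def LG (n : ℕ) (l : Pr) : Type := GL (Fin n) ℚ_[(l : ℕ)]

noncomputable instance instLG (n : ℕ) (l : Pr) : Group (LG n l) :=
  @Units.instGroup (Matrix (Fin n) (Fin n) ℚ_[(l : ℕ)]) _

/-- The matrix of an element of `GL_n(Q_l)`. -/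
def LG.m (g : LG n l) : Matrix (Fin n) (Fin n) ℚ_[(l : ℕ)] :=
  Units.val (α := Matrix (Fin n) (Fin n) ℚ_[(l : ℕ)]) g

/-- `g` is in `GL_n(Z_l)`: the entries of `g` and of `g⁻¹` are `l`-adic integers. -/
def LG.Int (g : LG n l) : Prop := (∀ i j, ‖g.m i j‖ ≤ 1) ∧ ∀ i j, ‖(g⁻¹).m i j‖ ≤ 1

theorem int_one : (1 : LG n l).Int := (CG.U n l).one_mem'

theorem int_mul {a b : LG n l} (ha : a.Int) (hb : b.Int) : (a * b).Int :=
  (CG.U n l).mul_mem' ha hb

theorem int_inv {a : LG n l} (ha : a.Int) : (a⁻¹).Int := (CG.U n l).inv_mem' ha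

/-- `GL_n(Z_l)` -/
def U (n : ℕ) (l : Pr) : Subgroup (LG n l) where
  carrier := {g | g.Int}
  one_mem' := int_one
  mul_mem' := int_mul
  inv_mem' := int_inv

/-- Almost all the components of `g` are in `GL_n(Z_l)`. -/
def Adelic (g : ∀ l : Pr, LG n l) : Prop := {l | g l ∉ U n l}.Finite

theorem adelic_one : Adelic (1 : ∀ l : Pr, LG n l) := (CG.AG n).one_mem'

theorem adelic_mul {a b : ∀ l : Pr, LG n l} (ha : Adelic a) (hb : Adelic b) : Adelic (a * b) :=
  (CG.AG n).mul_mem' ha hb

theorem adelic_inv {a : ∀ l : Pr, LG n l} (ha : Adelic a) : Adelic a⁻¹ :=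
  (CG.AG n).inv_mem' ha

/-- `GL_n(A_f)` as a subgroup of the product of the groups `GL_n(Q_l)`: almost all the components
are in `GL_n(Z_l)`. -/
def AG (n : ℕ) : Subgroup (∀ l : Pr, LG n l) where
  carrier := {g | Adelic g}
  one_mem' := adelic_one
  mul_mem' := adelic_mul
  inv_mem' := adelic_inv

/-- `GL_n(A_f)` -/
def GA (n : ℕ) : Type := ↥(AG n)

noncomputable instance instGA (n : ℕ) : Group (GA n) := Subgroup.toGroup (AG n)

/-- An element of `GL_n(A_f)` from its components. -/
def GA.of (g : ∀ l : Pr, LG n l) (h : Adelic g) : GA n := ⟨g, h⟩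

/-- The component at `l`. -/
def GA.c (g : GA n) (l : Pr) : LG n l := Subtype.val (p := fun g => g ∈ AG n) g l

/-- `GL_n(Q)⁺`, the rational matrices with positive determinant. -/
abbrev GQ (n : ℕ) := Matrix.GLPos (Fin n) ℚ

/-- The image of a rational matrix in `GL_n(Q_l)`. -/
noncomputable def loc (γ : GQ n) (l : Pr) : LG n l :=
  Matrix.GeneralLinearGroup.map (algebraMap ℚ ℚ_[(l : ℕ)]) γ.1

theorem loc_adelic (γ : GQ n) : Adelic (loc γ) := (CG.dg n γ).2

/-- The image of a rational matrix in `GL_n(A_f)`. -/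
noncomputable def dg (γ : GQ n) : GA n := GA.of (loc γ) (loc_adelic γ)

theorem single_adelic (x : LG n l) : Adelic (Pi.mulSingle l x : ∀ l : Pr, LG n l) :=
  (CG.inc n l x).2

/-- The image of an element of `GL_n(Q_l)` in `GL_n(A_f)`. -/
noncomputable def inc (x : LG n l) : GA n := GA.of (Pi.mulSingle l x) (single_adelic x)

/-! ### Levels and coefficients -/

/-- `g` is congruent to the identity modulo `l ^ r`. -/
def LG.Near (r : ℕ) (g : LG n l) : Prop :=
  ∀ i j, ‖g.m i j - (1 : Matrix (Fin n) (Fin n) ℚ_[(l : ℕ)]) i j‖ ≤ ((l : ℕ) : ℝ) ^ (-(r : ℤ))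

/-- A level: the compact open subgroup `K_f = ∏ K_l` of `GL_n(A_f)`.  Here `K_l` is an open
subgroup of `GL_n(Z_l)`, equal to `GL_n(Z_l)` for the primes `l` outside of the finite set `Sg`. -/
structure Level (n : ℕ) (Sg : Finset Pr) where
  /-- the local groups -/
  K : ∀ l : Pr, Subgroup (LG n l)
  le : ∀ l, K l ≤ U n l
  isOpen : ∀ l, ∃ r : ℕ, ∀ g ∈ U n l, g.Near r → g ∈ K l
  full : ∀ l, l ∉ Sg → K l = U n l

variable {Sg : Finset Pr} {L : Level n Sg} {p : Pr}

/-- the same data (used in proofs only) -/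
def Level.old (L : Level n Sg) : CG.Level n Sg := ⟨L.K, L.le, L.isOpen, L.full⟩

/-- `g` is in `K_f`. -/
def Level.Mem (L : Level n Sg) (g : GA n) : Prop := ∀ l, g.c l ∈ L.K l

theorem Level.mem_one : L.Mem 1 := L.old.Kf.one_mem'

theorem Level.mem_mul {a b : GA n} (ha : L.Mem a) (hb : L.Mem b) : L.Mem (a * b) :=
  L.old.Kf.mul_mem' ha hb

theorem Level.mem_inv {a : GA n} (ha : L.Mem a) : L.Mem a⁻¹ := L.old.Kf.inv_mem' ha

/-- The group `K_f`. -/
def Level.Kf (L : Level n Sg) : Subgroup (GA n) where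
  carrier := {g | L.Mem g}
  one_mem' := L.mem_one
  mul_mem' := L.mem_mul
  inv_mem' := L.mem_inv

/-- The group `K_p`. -/
def Level.Kp (L : Level n Sg) (p : Pr) : Type := ↥(L.K p)

noncomputable instance instKp (L : Level n Sg) (p : Pr) : Group (L.Kp p) :=
  Subgroup.toGroup (L.K p)

/-- The `p`-component of an element of `K_f`. -/
def Level.pc (L : Level n Sg) (p : Pr) (k : L.Kf) : L.Kp p := ⟨GA.c k.1 p, k.2 p⟩

/-- The element of `GL_n(Q_p)` given by an element of `K_p`. -/
def Level.Kp.g (k : L.Kp p) : LG n p := Subtype.val (p := fun g => g ∈ L.K p) k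

/-- The arithmetic groups `GL_n(Q)⁺ ∩ g K_f g⁻¹` are torsion free.  Every neat level has this
property. -/
def Level.TorsionFree (L : Level n Sg) : Prop :=
  ∀ (g : GA n) (γ : GQ n), g⁻¹ * dg γ * g ∈ L.Kf → IsOfFinOrder γ → γ = 1

/-- A coefficient module: an `O`-module `W` with an `O`-linear action of `K_p` which is continuous
for the `p`-adic topology of `W`. -/
structure Coef (L : Level n Sg) (p : Pr) (O : Type) [CommRing O] (W : Type) [AddCommGroup W]
    [Module O W] where
  /-- the action of `K_p` -/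
  act : Representation O (L.Kp p) W
  cont : ∀ r : ℕ, ∃ s : ℕ, ∀ k : L.Kp p, k.g.Near s →
    ∀ w, ∃ w', act k w - w = ((p : ℕ) : O) ^ r • w'

variable {O : Type} [CommRing O] {W : Type} [AddCommGroup W] [Module O W]

/-- the same data (used in proofs only) -/
def Coef.old (C : Coef L p O W) : CG.Coef L.old p O W := ⟨C.act, C.cont⟩

/-! ### The cohomology of `Y(K_f)` -/

/-- `F (g k) = k_p⁻¹ F(g)` for `k` in `K_f`. -/
def Coef.Eqv (C : Coef L p O W) (F : GA n → W) : Prop :=
  ∀ (g : GA n) (k : L.Kf), F (g * k.1) = C.act (L.pc p k)⁻¹ (F g)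

theorem Coef.eqv_add (C : Coef L p O W) {F F' : GA n → W} (h : C.Eqv F) (h' : C.Eqv F') :
    C.Eqv (F + F') := C.old.Fn.add_mem' h h'

theorem Coef.eqv_zero (C : Coef L p O W) : C.Eqv 0 := C.old.Fn.zero_mem'

theorem Coef.eqv_smul (C : Coef L p O W) (c : O) {F : GA n → W} (h : C.Eqv F) :
    C.Eqv (c • F) := C.old.Fn.smul_mem' c h

/-- The module of the functions `F : GL_n(A_f) → W` with `F (g k) = k_p⁻¹ F(g)` for `k` in
`K_f`. -/
def Coef.Fn (C : Coef L p O W) : Submodule O (GA n → W) where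
  carrier := {F | C.Eqv F}
  add_mem' := C.eqv_add
  zero_mem' := C.eqv_zero
  smul_mem' := C.eqv_smul

/-- The module of these functions. -/
def Coef.V (C : Coef L p O W) : Type := ↥C.Fn

noncomputable instance instVA (C : Coef L p O W) : AddCommGroup C.V := C.Fn.addCommGroup

noncomputable instance instVM (C : Coef L p O W) : Module O C.V := C.Fn.module

/-- The function. -/
def Coef.V.f {C : Coef L p O W} (F : C.V) : GA n → W := Subtype.val (p := fun F => F ∈ C.Fn) F

/-- An element of the module from the function. -/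
def Coef.V.of {C : Coef L p O W} (F : GA n → W) (h : C.Eqv F) : C.V := ⟨F, h⟩

theorem Coef.V.eqv {C : Coef L p O W} (F : C.V) : C.Eqv F.f := F.2

theorem Coef.eqv_trans (C : Coef L p O W) (γ : GQ n) (F : C.V) :
    C.Eqv (fun g => F.f ((dg γ)⁻¹ * g)) := (C.old.rep γ F).2

/-- The left translation of functions by a rational matrix: `(γ F)(g) = F(γ⁻¹ g)`. -/
noncomputable def Coef.tr (C : Coef L p O W) (γ : GQ n) (F : C.V) : C.V :=
  Coef.V.of (fun g => F.f ((dg γ)⁻¹ * g)) (C.eqv_trans γ F)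

theorem Coef.tr_add (C : Coef L p O W) (γ : GQ n) (F F' : C.V) :
    C.tr γ (F + F') = C.tr γ F + C.tr γ F' := rfl

theorem Coef.tr_smul (C : Coef L p O W) (γ : GQ n) (c : O) (F : C.V) :
    C.tr γ (c • F) = c • C.tr γ F := rfl

/-- The left translation as a linear map. -/
noncomputable def Coef.trL (C : Coef L p O W) (γ : GQ n) : C.V →ₗ[O] C.V where
  toFun := C.tr γ
  map_add' := C.tr_add γ
  map_smul' := C.tr_smul γ

theorem Coef.trL_one (C : Coef L p O W) : C.trL 1 = 1 := C.old.rep.map_one'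

theorem Coef.trL_mul (C : Coef L p O W) (γ δ : GQ n) : C.trL (γ * δ) = C.trL γ * C.trL δ :=
  C.old.rep.map_mul' γ δ

/-- The representation of `GL_n(Q)⁺` on the functions. -/
noncomputable def Coef.rep (C : Coef L p O W) : Representation O (GQ n) C.V where
  toFun := C.trL
  map_one' := C.trL_one
  map_mul' := C.trL_mul

/-- The cohomology group `H^i(Y(K_f), W)`, as the cohomology of `GL_n(Q)⁺` with values in the
functions on `GL_n(A_f)`. -/
noncomputable def Coef.H (C : Coef L p O W) (i : ℕ) : ModuleCat O :=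
  groupCohomology (Rep.of C.rep) i

/-! ### Hecke operators -/

/-- The coset `c` of `GL_n(Z_l)` is contained in the double coset `GL_n(Z_l) x GL_n(Z_l)`. -/
def InDC (x : LG n l) (c : LG n l ⧸ U n l) : Prop :=
  ∃ u ∈ U n l, c = ((u * x : LG n l) : LG n l ⧸ U n l)

/-- The Hecke operator of the double coset of `x` on functions:
`(T F)(g) = ∑ F (g y)`, the sum over the cosets `y GL_n(Z_l)` in the double coset of `x`. -/
noncomputable def hecke (x : LG n l) (F : GA n → W) (g : GA n) : W :=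
  ∑ᶠ c : {c : LG n l ⧸ U n l // InDC x c}, F (g * inc (Quotient.out c.1))

/-- The primes outside of `Sg`. -/
def Gp (Sg : Finset Pr) : Type := {l : Pr // l ∉ Sg}

/-- The prime. -/
def Gp.pr (a : Gp Sg) : Pr := Subtype.val (p := fun l => l ∉ Sg) a

theorem Gp.not_mem (a : Gp Sg) : a.pr ∉ Sg := a.2

/-- The indices of the Hecke operators: a prime `l` outside of `Sg` and an element of
`GL_n(Q_l)`. -/
def HI (n : ℕ) (Sg : Finset Pr) : Type := Σ l : Gp Sg, LG n l.pr

/-- The prime of an index. -/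
def HI.pr (a : HI n Sg) : Gp Sg := Sigma.fst a

/-- The matrix of an index. -/
def HI.x (a : HI n Sg) : LG n a.pr.pr := Sigma.snd a

/-- The index given by a prime and a matrix. -/
def HI.mk (l : Gp Sg) (x : LG n l.pr) : HI n Sg := ⟨l, x⟩

theorem Coef.eqv_hecke (C : Coef L p O W) (hp : p ∈ Sg) (a : HI n Sg) (F : C.V) :
    C.Eqv (hecke a.x F.f) := (C.old.heckeFn a.pr.pr a.pr.2 hp a.x F).2

/-- The Hecke operator on the module of functions. -/
noncomputable def Coef.hk (C : Coef L p O W) (hp : p ∈ Sg) (a : HI n Sg) (F : C.V) : C.V :=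
  Coef.V.of (hecke a.x F.f) (C.eqv_hecke hp a F)

theorem Coef.hk_add (C : Coef L p O W) (hp : p ∈ Sg) (a : HI n Sg) (F F' : C.V) :
    C.hk hp a (F + F') = C.hk hp a F + C.hk hp a F' :=
  (C.old.heckeFn a.pr.pr a.pr.2 hp a.x).map_add' F F'

theorem Coef.hk_smul (C : Coef L p O W) (hp : p ∈ Sg) (a : HI n Sg) (c : O) (F : C.V) :
    C.hk hp a (c • F) = c • C.hk hp a F :=
  (C.old.heckeFn a.pr.pr a.pr.2 hp a.x).map_smul' c F

/-- The Hecke operator on the module of functions as a linear map. -/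
noncomputable def Coef.hkL (C : Coef L p O W) (hp : p ∈ Sg) (a : HI n Sg) : C.V →ₗ[O] C.V where
  toFun := C.hk hp a
  map_add' := C.hk_add hp a
  map_smul' := C.hk_smul hp a

theorem Coef.hkL_comm (C : Coef L p O W) (hp : p ∈ Sg) (a : HI n Sg) :
    Comm C.rep (C.hkL hp a) :=
  fun γ F => Subtype.ext (funext fun g => CG.hecke_left F.1 a.x (CG.dg n γ)⁻¹ g)

/-- The Hecke operator on the cohomology. -/
noncomputable def Coef.T (C : Coef L p O W) (hp : p ∈ Sg) (i : ℕ) (a : HI n Sg) :
    Module.End O (C.H i) :=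
  mapH C.rep (C.hkL hp a) (C.hkL_comm hp a) i

/-- The free algebra on the Hecke operators. -/
abbrev HA (n : ℕ) (Sg : Finset Pr) (O : Type) [CommRing O] : Type := FreeAlgebra O (HI n Sg)

/-- `H^i(Y(K_f), W)_m ≠ 0` for the kernel `m` of the system of Hecke eigenvalues `θ`. -/
def Coef.LocNe (C : Coef L p O W) (hp : p ∈ Sg) (i : ℕ) {k : Type} [Field k] [Algebra O k]
    (θ : HA n Sg O →ₐ[O] k) : Prop :=
  Occurs (C.T hp i) θ

/-! ### Galois representations -/

/-- The matrix `diag(l, …, l, 1, …, 1)` with `k` entries `l`. -/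
noncomputable def tm (n : ℕ) (l : Pr) (k : ℕ) : Matrix (Fin n) (Fin n) ℚ_[(l : ℕ)] :=
  diagonal (fun i : Fin n => if (i : ℕ) < k then ((l : ℕ) : ℚ_[(l : ℕ)]) else 1)

theorem det_tm (n : ℕ) (l : Pr) (k : ℕ) : (tm n l k).det ≠ 0 := by
  unfold tm
  rw [det_diagonal]
  apply Finset.prod_ne_zero_iff.mpr
  intro i _
  split_ifs
  · exact_mod_cast l.2.ne_zero
  · exact one_ne_zero

/-- The same matrix as an element of `GL_n(Q_l)`. -/
noncomputable def td (n : ℕ) (l : Pr) (k : ℕ) : LG n l :=
  Matrix.GeneralLinearGroup.mkOfDetNeZero (tm n l k) (det_tm n l k)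

/-- The Satake polynomial at `l` of a system of Hecke eigenvalues `θ`, twisted by the `t`-th power
of the cyclotomic character:
`∑_j (-1)^j l^{j(j-1)/2 + t j} θ(T_{l,j}) X^{n-j}`,
with `T_{l,j}` the double coset operator of `diag(l, …, l, 1, …, 1)` (`j` entries `l`). -/
noncomputable def satake {k : Type} [Field k] [Algebra O k] (θ : HA n Sg O →ₐ[O] k) (t : ℤ)
    (l : Gp Sg) : Polynomial k :=
  ∑ j ∈ Finset.range (n + 1),
    Polynomial.C ((-1) ^ j * (((l.pr : ℕ) : k)) ^ (((j * (j - 1) / 2 : ℕ) : ℤ) + t * j) *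
      θ (FreeAlgebra.ι O (HI.mk l (td n l.pr j)))) * Polynomial.X ^ (n - j)

/-- The representation `ρ` of the Galois group of the finite Galois extension `F` of the rational
numbers is attached to `θ`: it is unramified outside of `Sg` and for `l` outside of `Sg` the
characteristic polynomial of the (arithmetic for `e = 1`, geometric for `e = -1`) Frobenius
elements at `l` is the Satake polynomial. -/
structure Attached {k : Type} [Field k] [Algebra O k] (θ : HA n Sg O →ₐ[O] k)
    (e t : ℤ) {F : Type} [Field F] [NumberField F] (ρ : Gal(F/ℚ) →* GL (Fin n) k) : Prop where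
  unram : ∀ l : Pr, l ∉ Sg → ∀ P : Ideal (𝓞 F), P.IsPrime → ((l : ℕ) : 𝓞 F) ∈ P →
    ∀ σ : Gal(F/ℚ), (∀ x : 𝓞 F, σ • x - x ∈ P) → ρ σ = 1
  frob : ∀ l : Gp Sg, ∀ P : Ideal (𝓞 F), P.IsPrime → ((l.pr : ℕ) : 𝓞 F) ∈ P →
    ∀ σ : Gal(F/ℚ), (∀ x : 𝓞 F, σ • x - x ^ (l.pr : ℕ) ∈ P) →
      ((ρ (σ ^ e)).1).charpoly = satake θ t l

/-- Over the extension `k'` of `k` there is no proper nonzero invariant subspace. -/
def Irr {k : Type} [Field k] {Γ : Type} [Group Γ] (ρ : Γ →* GL (Fin n) k) (k' : Type) [Field k']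
    [Algebra k k'] : Prop :=
  ∀ S : Submodule k' (Fin n → k'),
    (∀ σ, ∀ v ∈ S, ((ρ σ).1.map (algebraMap k k')) *ᵥ v ∈ S) → S = ⊥ ∨ S = ⊤

/-- `ρ` is absolutely irreducible: irreducible over every finite extension of `k`. -/
def AbsIrr {k : Type} [Field k] {Γ : Type} [Group Γ] (ρ : Γ →* GL (Fin n) k) : Prop :=
  ∀ (k' : Type) [Field k'] [Algebra k k'] [FiniteDimensional k k'], Irr ρ k'

end Pool.Agent.L0h47.CGS
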