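import Pool.Agent.L0h47.CG.LowMain
import Pool.Agent.L0h47.CG.Acyc
import Pool.Agent.L0h47.CGS.Defs

/-!
# Comparison of the two forms of the definitions
-/

set_option autoImplicit false

namespace Pool.Agent.L0h47.CGS

open Matrix NumberField

variable {n : ℕ} {Sg : Finset Pr} {L : Level n Sg} {p : Pr} {O : Type} [CommRing O] {W : Type}
  [AddCommGroup W] [Module O W]

/-- the same system of eigenvalues -/
def oldθ {k : Type} [Field k] [Algebra O k] (θ : HA n Sg O →ₐ[O] k) :
    FreeAlgebra O (CG.HI n Sg) →ₐ[O] k := θ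

theorem T_old (C : Coef L p O W) (hp : p ∈ Sg) (i : ℕ) (a : HI n Sg) :
    C.T hp i a = C.old.T hp i a := rfl

theorem locNe_old (C : Coef L p O W) (hp : p ∈ Sg) (i : ℕ) {k : Type} [Field k] [Algebra O k]
    (θ : HA n Sg O →ₐ[O] k) (h : C.LocNe hp i θ) : C.old.LocNe hp i (oldθ θ) := h

theorem td_old (l : Pr) (k : ℕ) : td n l k = CG.td n l k := Units.ext rfl

theorem satake_old {k : Type} [Field k] [Algebra O k] (θ : HA n Sg O →ₐ[O] k) (t : ℤ)
    (l : Gp Sg) : satake θ t l = CG.satake (oldθ θ) t l := by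
  unfold satake CG.satake
  apply Finset.sum_congr rfl
  intro j _
  rw [td_old]
  rfl

theorem attached_old {k : Type} [Field k] [Algebra O k] (θ : HA n Sg O →ₐ[O] k) (e t : ℤ)
    {F : Type} [Field F] [NumberField F] (ρ : Gal(F/ℚ) →* GL (Fin n) k) (h : Attached θ e t ρ) :
    CG.Attached (oldθ θ) e t ρ :=
  ⟨h.unram, fun l P hP hl σ hσ => (h.frob l P hP hl σ hσ).trans (satake_old θ t l)⟩

theorem absIrr_old {k : Type} [Field k] {Γ : Type} [Group Γ] {ρ : Γ →* GL (Fin n) k} (h : AbsIrr ρ) :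
    CG.AbsIrr ρ := fun k' _ _ _ S hS => h k' S hS

theorem torsionFree_old (hL : L.TorsionFree) : L.old.TorsionFree := hL

end Pool.Agent.L0h47.CGS
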